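import Pool.Agent.LRG.StmtsA

/-! Row CRG of squad LRG: if the values of the `l i` at the conjugates are dependent, the Gram
determinant vanishes. -/

set_option autoImplicit false

open Polynomial NumberField

namespace Pool.Agent.LRG.H44

theorem eval₂_fin {R E : Type} [CommRing R] [Field E] (f : R →+* E) (n : ℕ) (q : R[X])
    (hq : ∀ m, n ≤ m → q.coeff m = 0) (x : E) :
    eval₂ f x q = ∑ a : Fin n, f (q.coeff a) * x ^ (a : ℕ) := by
  rw [eval₂_eq_sum_range' f (n := n + q.natDegree + 1) (by omega) x,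
    Fin.sum_univ_eq_sum_range (fun a => f (q.coeff a) * x ^ a) n]
  refine (Finset.sum_subset (Finset.range_mono (by omega)) fun m _ hm => ?_).symm
  rw [hq m (by simpa using hm), map_zero, zero_mul]

theorem crg : A.CrgStmt := by
  intro n r R E _ _ f hf κ _ y l x hy hdeg c hc hL
  set L : Fin r → κ → E := fun i σ => ∑ a : Fin n, f ((l i).coeff a) * x i σ ^ (a : ℕ) with hLdef
  have hLe : ∀ i σ, eval₂ f (x i σ) (l i) = L i σ := fun i σ => eval₂_fin f n (l i) (hdeg i) _
  have hent : ∀ i i', f (gram y l i i') = ∑ σ, L i σ * L i' σ := by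
    intro i i'
    have h1 : f (gram y l i i') = ∑ a : Fin n, ∑ b : Fin n,
        f ((l i).coeff a) * f ((l i').coeff b) * ∑ σ, x i σ ^ (a : ℕ) * x i' σ ^ (b : ℕ) := by
      simp only [gram, Matrix.of_apply, map_sum, map_mul, hy]
    rw [h1]
    simp only [hLdef, Finset.sum_mul_sum]
    simp only [Finset.mul_sum]
    have h2 : ∀ a : Fin n, ∑ b : Fin n, ∑ σ, f ((l i).coeff a) * f ((l i').coeff b) *
        (x i σ ^ (a : ℕ) * x i' σ ^ (b : ℕ)) = ∑ σ, ∑ b : Fin n,
        f ((l i).coeff a) * x i σ ^ (a : ℕ) * (f ((l i').coeff b) * x i' σ ^ (b : ℕ)) := by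
      intro a
      rw [Finset.sum_comm]
      refine Finset.sum_congr rfl fun σ _ => Finset.sum_congr rfl fun b _ => ?_
      ring
    simp only [h2]
    rw [Finset.sum_comm]
  have hker : ((f.mapMatrix (gram y l)) : Matrix (Fin r) (Fin r) E).mulVec c = 0 := by
    funext i
    have h1 : ((f.mapMatrix (gram y l)).mulVec c) i = ∑ i', f (gram y l i i') * c i' := rfl
    rw [h1, Pi.zero_apply]
    simp only [hent, Finset.sum_mul]
    rw [Finset.sum_comm]
    refine Finset.sum_eq_zero fun σ _ => ?_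
    have h2 : ∑ i', L i σ * L i' σ * c i' = L i σ * ∑ i', c i' * L i' σ := by
      rw [Finset.mul_sum]
      refine Finset.sum_congr rfl fun i' _ => ?_
      ring
    rw [h2]
    have h3 := hL σ
    simp only [hLe] at h3
    rw [h3, mul_zero]
  have hdet : ((f.mapMatrix (gram y l)) : Matrix (Fin r) (Fin r) E).det = 0 :=
    Matrix.exists_mulVec_eq_zero_iff.mp ⟨c, hc, hker⟩
  rw [← RingHom.map_det] at hdet
  exact hf (by rw [hdet, map_zero])

end Pool.Agent.LRG.H44
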