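import Pool.Agent.LRG.StmtsH

/-! Row ARC of squad LRG: the arc through a point of a chart. -/

set_option autoImplicit false

open Polynomial

namespace Pool.Agent.LRG.H44

/-- the substitution `W i ↦ C (w_i) + C (d i) * X` -/
noncomputable def psi (p : ℕ) [Fact p.Prime] {m : ℕ} (w : Fin m → ℤ) (d : Fin m → ℤ_[p]) :
    MvPolynomial (Fin m) ℤ →+* ℤ_[p][X] :=
  MvPolynomial.eval₂Hom (Int.castRingHom ℤ_[p][X]) fun i => C ((w i : ℤ) : ℤ_[p]) + C (d i) * X

theorem psi_X (p : ℕ) [Fact p.Prime] {m : ℕ} (w : Fin m → ℤ) (d : Fin m → ℤ_[p]) (i : Fin m) :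
    psi p w d (MvPolynomial.X i) = C ((w i : ℤ) : ℤ_[p]) + C (d i) * X := by
  unfold psi
  rw [MvPolynomial.coe_eval₂Hom, MvPolynomial.eval₂_X]

theorem hom_ext {m : ℕ} {A : Type} [CommRing A] (f g : MvPolynomial (Fin m) ℤ →+* A)
    (h : ∀ i, f (MvPolynomial.X i) = g (MvPolynomial.X i)) : f = g :=
  MvPolynomial.ringHom_ext (fun n => by
    rw [← RingHom.comp_apply, ← RingHom.comp_apply, eq_intCast, eq_intCast]) h

theorem psi_zero (p : ℕ) [Fact p.Prime] {m : ℕ} (w : Fin m → ℤ) (d : Fin m → ℤ_[p]) :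
    (evalRingHom (0 : ℤ_[p])).comp (psi p w d) =
      (Int.castRingHom ℤ_[p]).comp (MvPolynomial.eval₂Hom (Int.castRingHom ℤ) w) := by
  refine hom_ext _ _ fun i => ?_
  rw [RingHom.comp_apply, RingHom.comp_apply, psi_X, MvPolynomial.coe_eval₂Hom,
    MvPolynomial.eval₂_X]
  simp

/-- the value at `t = 0` -/
theorem map_zero_eval (p : ℕ) [Fact p.Prime] {m k : ℕ} (x : Fin (m + k) → ℤ)
    (d : Fin m → ℤ_[p]) (j : Fin k) (g : (MvPolynomial (Fin m) ℤ)[X]) :
    ((g.map (psi p (wv x) d)).map (evalRingHom (0 : ℤ_[p]))).eval ((zv x j : ℤ) : ℤ_[p]) =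
      ((gev x j g : ℤ) : ℤ_[p]) := by
  rw [Polynomial.map_map, psi_zero, eval_map, gev]
  have h := Polynomial.hom_eval₂ g (MvPolynomial.eval₂Hom (Int.castRingHom ℤ) (wv x))
    (Int.castRingHom ℤ_[p]) (zv x j)
  exact h.symm

/-- the composition with the substitution of a power series -/
theorem comp_psi (p : ℕ) [Fact p.Prime] {m : ℕ} (w : Fin m → ℤ) (d : Fin m → ℤ_[p])
    (a : ℤ_[p]) (v : Fin m → PowerSeries ℤ_[p])
    (hv : ∀ i, v i = PowerSeries.C ((w i : ℤ) : ℤ_[p]) + PowerSeries.C (a * d i) * PowerSeries.X) :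
    (eval₂RingHom (PowerSeries.C (R := ℤ_[p])) (PowerSeries.C a * PowerSeries.X)).comp
      (psi p w d) = MvPolynomial.eval₂Hom (Int.castRingHom (PowerSeries ℤ_[p])) v := by
  refine hom_ext _ _ fun i => ?_
  rw [RingHom.comp_apply, psi_X, MvPolynomial.coe_eval₂Hom, MvPolynomial.eval₂_X, hv,
    coe_eval₂RingHom, eval₂_add, eval₂_mul, eval₂_C, eval₂_C, eval₂_X, map_mul]
  ring

theorem arc (new : H.NewStmt) : H.ArcStmt := by
  intro p _ m k G x d h0 h1
  have hinj : Function.Injective (Int.cast : ℤ → ℤ_[p]) := Int.cast_injective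
  have hN : ∀ j : Fin k, ∃ e₀ : ℕ, ∀ e : ℕ, e₀ ≤ e → ∃ ζ : PowerSeries ℤ_[p],
      PowerSeries.constantCoeff ζ = ((zv x j : ℤ) : ℤ_[p]) ∧
      ((G j).map (psi p (wv x) d)).eval₂ (eval₂RingHom (PowerSeries.C (R := ℤ_[p]))
        (PowerSeries.C ((p : ℤ_[p]) ^ e) * PowerSeries.X)) ζ = 0 := by
    intro j
    refine new p ((G j).map (psi p (wv x) d)) _ ?_ ?_
    · rw [map_zero_eval, h0 j, Int.cast_zero]
    · rw [derivative_map, derivative_map, map_zero_eval]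
      exact fun h => h1 j (hinj (by rw [h, Int.cast_zero]))
  choose e₀ he₀ using hN
  obtain ⟨e, he⟩ : ∃ e : ℕ, ∀ j, e₀ j ≤ e :=
    ⟨Finset.univ.sup e₀, fun j => Finset.le_sup (f := e₀) (Finset.mem_univ j)⟩
  choose ζ hζ1 hζ2 using fun j => he₀ j e (he j)
  set ξ : Fin (m + k) → PowerSeries ℤ_[p] := fun i =>
    if h : (i : ℕ) < k then ζ ⟨i, h⟩ else
      PowerSeries.C ((x i : ℤ) : ℤ_[p]) +
        PowerSeries.C ((p : ℤ_[p]) ^ e * d ⟨(i : ℕ) - k, by omega⟩) * PowerSeries.X with hξ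
  have hz : ∀ j, zv ξ j = ζ j := by
    intro j
    simp only [zv, hξ]
    rw [dif_pos j.2]
  have hw : ∀ i, wv ξ i = PowerSeries.C (((wv x i : ℤ)) : ℤ_[p]) +
      PowerSeries.C ((p : ℤ_[p]) ^ e * d i) * PowerSeries.X := by
    intro i
    simp only [wv, hξ]
    rw [dif_neg (by omega)]
    congr 5
    exact Fin.ext (Nat.add_sub_cancel_left k i)
  have hg : ∀ j, gev ξ j (G j) = 0 := by
    intro j
    have h2 := hζ2 j
    rw [eval₂_map, comp_psi p (wv x) d ((p : ℤ_[p]) ^ e) (wv ξ) hw] at h2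
    rw [gev, hz]
    exact h2
  refine ⟨e, ξ, ?_, hw, hg, ?_⟩
  · intro i
    by_cases h : (i : ℕ) < k
    · have h3 : ξ i = ζ ⟨i, h⟩ := by
        simp only [hξ]
        rw [dif_pos h]
      rw [h3, hζ1]
      rfl
    · have h3 : ξ i = PowerSeries.C ((x i : ℤ) : ℤ_[p]) +
          PowerSeries.C ((p : ℤ_[p]) ^ e * d ⟨(i : ℕ) - k, by omega⟩) * PowerSeries.X := by
        simp only [hξ]
        rw [dif_neg h]
      rw [h3]
      simp
  · intro i
    by_cases h : (i : ℕ) < k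
    · have h3 : ξ i = ζ ⟨i, h⟩ := by
        simp only [hξ]
        rw [dif_pos h]
      refine ⟨(G ⟨i, h⟩).map (psi p (wv x) fun i => (p : ℤ_[p]) ^ e * d i), ?_, ?_⟩
      · intro hzero
        have h4 := map_zero_eval p x (fun i => (p : ℤ_[p]) ^ e * d i) ⟨i, h⟩
          (derivative (G ⟨i, h⟩))
        rw [← derivative_map, hzero, derivative_zero, Polynomial.map_zero, eval_zero] at h4
        exact h1 ⟨i, h⟩ (hinj (by rw [← h4, Int.cast_zero]))
      · have h5 := comp_psi p (wv x) (fun i => (p : ℤ_[p]) ^ e * d i) 1 (wv ξ) (fun i => by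
          rw [hw, one_mul])
        rw [map_one, one_mul] at h5
        rw [eval₂_map, h5, h3, ← hz ⟨i, h⟩]
        exact hg ⟨i, h⟩
    · have h3 : ξ i = PowerSeries.C ((x i : ℤ) : ℤ_[p]) +
          PowerSeries.C ((p : ℤ_[p]) ^ e * d ⟨(i : ℕ) - k, by omega⟩) * PowerSeries.X := by
        simp only [hξ]
        rw [dif_neg h]
      refine ⟨X - C (C ((x i : ℤ) : ℤ_[p]) +
        C ((p : ℤ_[p]) ^ e * d ⟨(i : ℕ) - k, by omega⟩) * X), X_sub_C_ne_zero _, ?_⟩
      rw [eval₂_sub, eval₂_X, eval₂_C, coe_eval₂RingHom, eval₂_add, eval₂_mul, eval₂_C, eval₂_C,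
        eval₂_X, h3, sub_self]

end Pool.Agent.LRG.H44
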