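import Pool.Agent.LRG.StmtsH

/-! Row MTX of squad LRG: the multiplication by `Λ ^ δ q` on the variety of a chart. -/

set_option autoImplicit false

open Polynomial

namespace Pool.Agent.LRG.H44

open Pool.Agent.LRG.H

variable {m k E : ℕ} {G : Fin k → (MvPolynomial (Fin m) ℤ)[X]}

theorem rep_mono {D D' : ℕ} {f : MvPolynomial (Fin (m + k)) ℤ} (h : Rep E D G f) (hD : D ≤ D') :
    Rep E D' G f := by
  obtain ⟨M, h1, h2⟩ := h
  exact ⟨M, fun α β => (h1 α β).trans hD, h2⟩

theorem rep_zero (D : ℕ) : Rep E D G (0 : MvPolynomial (Fin (m + k)) ℤ) :=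
  ⟨0, fun α β => by simp, fun O _ x _ α => by simp⟩

theorem rep_add {D : ℕ} {f f' : MvPolynomial (Fin (m + k)) ℤ} (h : Rep E D G f)
    (h' : Rep E D G f') : Rep E D G (f + f') := by
  obtain ⟨M, h1, h2⟩ := h
  obtain ⟨M', h1', h2'⟩ := h'
  refine ⟨M + M', fun α β => ?_, fun O _ x hx α => ?_⟩
  · rw [Matrix.add_apply]
    exact (MvPolynomial.totalDegree_add _ _).trans (max_le (h1 α β) (h1' α β))
  · rw [map_add, add_mul, h2 O x hx α, h2' O x hx α, ← Finset.sum_add_distrib]
    refine Finset.sum_congr rfl fun β _ => ?_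
    rw [Matrix.add_apply, map_add, add_mul]

theorem rep_mul {D D' : ℕ} {f f' : MvPolynomial (Fin (m + k)) ℤ} (h : Rep E D G f)
    (h' : Rep E D' G f') : Rep E (D + D') G (f * f') := by
  obtain ⟨M, h1, h2⟩ := h
  obtain ⟨M', h1', h2'⟩ := h'
  refine ⟨M' * M, fun α γ => ?_, fun O _ x hx α => ?_⟩
  · rw [Matrix.mul_apply]
    refine MvPolynomial.totalDegree_finsetSum_le fun β _ => ?_
    refine (MvPolynomial.totalDegree_mul _ _).trans ?_
    have e1 := h1 β γ
    have e2 := h1' α β
    omega
  · rw [map_mul, mul_assoc, h2' O x hx α, Finset.mul_sum]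
    have e1 : ∀ β, MvPolynomial.aeval x f * (MvPolynomial.aeval (wv x) (M' α β) * zm x β) =
        ∑ γ, MvPolynomial.aeval (wv x) (M' α β) * MvPolynomial.aeval (wv x) (M β γ) * zm x γ := by
      intro β
      rw [mul_left_comm, h2 O x hx β, Finset.mul_sum]
      refine Finset.sum_congr rfl fun γ _ => ?_
      ring
    simp only [e1]
    rw [Finset.sum_comm]
    refine Finset.sum_congr rfl fun γ _ => ?_
    rw [Matrix.mul_apply, map_sum, Finset.sum_mul]
    refine Finset.sum_congr rfl fun β _ => ?_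
    rw [map_mul]

theorem aeval_wp {O : Type} [CommRing O] (x : Fin (m + k) → O) (h : MvPolynomial (Fin m) ℤ) :
    MvPolynomial.aeval x (wp k h) = MvPolynomial.aeval (wv x) h := by
  unfold wp
  rw [MvPolynomial.aeval_rename]
  rfl

theorem rep_wp (h : MvPolynomial (Fin m) ℤ) : Rep E h.totalDegree G (wp k h) := by
  classical
  refine ⟨Matrix.of fun α β => if α = β then h else 0, fun α β => ?_, fun O _ x _ α => ?_⟩
  · rw [Matrix.of_apply]
    split_ifs
    · exact le_rfl
    · simp
  · rw [aeval_wp, Finset.sum_eq_single α]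
    · simp
    · intro β _ hβ
      rw [Matrix.of_apply, if_neg (Ne.symm hβ), map_zero, zero_mul]
    · intro hα
      exact absurd (Finset.mem_univ α) hα

theorem wp_mul (a b : MvPolynomial (Fin m) ℤ) : wp k (a * b) = wp k a * wp k b := by
  unfold wp
  rw [map_mul]

theorem rep_pow {D : ℕ} {f : MvPolynomial (Fin (m + k)) ℤ} (h : Rep E D G f) (n : ℕ) :
    Rep E (n * D) G (f ^ n) := by
  induction n with
  | zero =>
    have h1 := rep_wp (k := k) (E := E) (G := G) (1 : MvPolynomial (Fin m) ℤ)
    have h2 : wp k (1 : MvPolynomial (Fin m) ℤ) = 1 := by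
      unfold wp
      rw [map_one]
    rw [h2] at h1
    rw [pow_zero]
    exact rep_mono h1 (by simp)
  | succ n ih =>
    rw [pow_succ]
    have e : (n + 1) * D = n * D + D := by ring
    rw [e]
    exact rep_mul ih h

theorem rep_sum {D : ℕ} {ι : Type} (s : Finset ι) (f : ι → MvPolynomial (Fin (m + k)) ℤ)
    (h : ∀ i ∈ s, Rep E D G (f i)) : Rep E D G (∑ i ∈ s, f i) := by
  classical
  induction s using Finset.induction_on with
  | empty => simpa using rep_zero D
  | insert a s ha ih =>
    rw [Finset.sum_insert ha]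
    exact rep_add (h a (Finset.mem_insert_self a s))
      (ih fun i hi => h i (Finset.mem_insert_of_mem hi))

/-- the degree of a product of leading coefficients -/
theorem deg_prod (hG : BddG E G) (s : Finset (Fin k)) :
    (∏ j ∈ s, (G j).leadingCoeff).totalDegree ≤ s.card * E := by
  refine (MvPolynomial.totalDegree_finsetProd _ _).trans ?_
  rw [← smul_eq_mul]
  exact Finset.sum_le_card_nsmul _ _ _ fun j _ => (hG j).2.2 _

theorem rep_var (mul : MulStmt) (hG : BddG E G) (i : Fin (m + k)) :
    Rep E (k * E + E + 1) G (wp k (∏ j, (G j).leadingCoeff) * MvPolynomial.X i) := by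
  by_cases h : (i : ℕ) < k
  · have h1 : ∏ j, (G j).leadingCoeff =
        (∏ j ∈ Finset.univ.erase ⟨i, h⟩, (G j).leadingCoeff) * (G ⟨i, h⟩).leadingCoeff :=
      (Finset.prod_erase_mul _ _ (Finset.mem_univ _)).symm
    have h2 : (⟨((⟨i, h⟩ : Fin k) : ℕ), by omega⟩ : Fin (m + k)) = i := rfl
    rw [h1, wp_mul, mul_assoc]
    have h3 := mul m k E G hG ⟨i, h⟩
    rw [h2] at h3
    refine rep_mono (rep_mul (rep_wp _) h3) ?_
    have h4 := deg_prod hG (Finset.univ.erase (⟨i, h⟩ : Fin k))
    have h5 : (Finset.univ.erase (⟨i, h⟩ : Fin k)).card ≤ k := by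
      have := Finset.card_erase_le (s := (Finset.univ : Finset (Fin k))) (a := ⟨i, h⟩)
      simpa using this
    have h6 := Nat.mul_le_mul_right E h5
    omega
  · have h1 : MvPolynomial.X i = wp k (MvPolynomial.X (⟨(i : ℕ) - k, by omega⟩ : Fin m)) := by
      unfold wp
      rw [MvPolynomial.rename_X]
      congr 1
      exact Fin.ext (by simp only []; omega)
    rw [h1, ← wp_mul]
    refine rep_mono (rep_wp _) ((MvPolynomial.totalDegree_mul _ _).trans ?_)
    have h2 := deg_prod hG (Finset.univ : Finset (Fin k))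
    have h3 : (MvPolynomial.X (⟨(i : ℕ) - k, by omega⟩ : Fin m) :
        MvPolynomial (Fin m) ℤ).totalDegree = 1 := MvPolynomial.totalDegree_X _
    rw [Finset.card_univ, Fintype.card_fin] at h2
    omega

theorem rep_monomial (mul : MulStmt) (hG : BddG E G) (s : Fin (m + k) →₀ ℕ) :
    Rep E (s.degree * (k * E + E + 1)) G
      (wp k (∏ j, (G j).leadingCoeff) ^ s.degree * MvPolynomial.monomial s 1) := by
  induction s using Finsupp.induction_linear with
  | zero =>
    have h1 := rep_pow (rep_zero (m := m) (k := k) (E := E) (G := G) 0) 0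
    simpa using h1
  | add s t hs ht =>
    have e1 : (s + t).degree = s.degree + t.degree := map_add _ _ _
    have e2 : (MvPolynomial.monomial (s + t) 1 : MvPolynomial (Fin (m + k)) ℤ) =
        MvPolynomial.monomial s 1 * MvPolynomial.monomial t 1 := by
      rw [MvPolynomial.monomial_mul, one_mul]
    have e3 : wp k (∏ j, (G j).leadingCoeff) ^ (s.degree + t.degree) *
        (MvPolynomial.monomial s 1 * MvPolynomial.monomial t 1) =
        (wp k (∏ j, (G j).leadingCoeff) ^ s.degree * MvPolynomial.monomial s 1) *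
        (wp k (∏ j, (G j).leadingCoeff) ^ t.degree * MvPolynomial.monomial t 1) := by
      rw [pow_add]
      ring
    rw [e1, e2, e3, add_mul]
    exact rep_mul hs ht
  | single i n =>
    have e1 : (Finsupp.single i n).degree = n := by simp
    have e2 : (MvPolynomial.monomial (Finsupp.single i n) 1 : MvPolynomial (Fin (m + k)) ℤ) =
        MvPolynomial.X i ^ n := (MvPolynomial.X_pow_eq_monomial).symm
    rw [e1, e2, ← mul_pow]
    exact rep_pow (rep_var mul hG i) n

theorem mtx (mul : MulStmt) : MtxStmt := by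
  intro m k E δ
  refine ⟨δ * (k * E + E + 1), fun G hG q hq => ?_⟩
  set Λ : MvPolynomial (Fin m) ℤ := ∏ j, (G j).leadingCoeff with hΛ
  have hLam : Rep E (k * E + E + 1) G (wp k Λ) := by
    refine rep_mono (rep_wp _) ?_
    have h2 := deg_prod hG (Finset.univ : Finset (Fin k))
    rw [Finset.card_univ, Fintype.card_fin] at h2
    rw [hΛ]
    omega
  have h1 : wp k Λ ^ δ * q = ∑ s ∈ q.support,
      wp k (MvPolynomial.C (q.coeff s)) * (wp k Λ ^ (δ - s.degree) *
        (wp k Λ ^ s.degree * MvPolynomial.monomial s 1)) := by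
    conv_lhs => rw [← MvPolynomial.support_sum_monomial_coeff q]
    rw [Finset.mul_sum]
    refine Finset.sum_congr rfl fun s hs => ?_
    have e1 : s.degree ≤ δ := (MvPolynomial.le_totalDegree hs).trans hq
    have e2 : wp k (MvPolynomial.C (q.coeff s) : MvPolynomial (Fin m) ℤ) =
        MvPolynomial.C (q.coeff s) := by
      unfold wp
      rw [MvPolynomial.rename_C]
    have e3 : (MvPolynomial.monomial s (q.coeff s) : MvPolynomial (Fin (m + k)) ℤ) =
        MvPolynomial.C (q.coeff s) * MvPolynomial.monomial s 1 := by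
      rw [MvPolynomial.C_mul_monomial, mul_one]
    rw [e2, e3, ← mul_assoc (wp k Λ ^ (δ - s.degree)), ← pow_add, Nat.sub_add_cancel e1]
    ring
  rw [h1]
  refine rep_sum _ _ fun s hs => ?_
  have e1 : s.degree ≤ δ := (MvPolynomial.le_totalDegree hs).trans hq
  refine rep_mono (rep_mul (rep_wp _) (rep_mul (rep_pow hLam (δ - s.degree))
    (rep_monomial mul hG s))) ?_
  rw [MvPolynomial.totalDegree_C, zero_add, ← add_mul, Nat.sub_add_cancel e1]

end Pool.Agent.LRG.H44
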