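import Pool.Agent.LRG.StmtsE

/-! Row BGT of squad LRG: all large `t` are large. -/

set_option autoImplicit false

namespace Pool.Agent.LRG.H44

theorem bgt : E.BgtStmt := by
  intro r₁ r₂ h
  obtain ⟨m, hm⟩ : ∃ m, r₁ + 2 * r₂ = m + 2 := ⟨r₁ + 2 * r₂ - 2, by omega⟩
  have hb : 0 < E.bd r₁ r₂ := by
    unfold E.bd
    positivity
  set b : ℝ := E.bd r₁ r₂ with hbdef
  set n : ℝ := ((m + 2 : ℕ) : ℝ) with hn
  have hn0 : 0 < n := by
    rw [hn]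
    positivity
  set c : ℝ := n * (8 * n * b) ^ m * 2 ^ (m + 1) with hc
  have hc0 : 0 < c := by positivity
  refine ⟨max 4 (⌊c⌋₊ + 1), fun t ht => ?_⟩
  have ht4 : 4 ≤ t := (le_max_left _ _).trans ht
  have htc : c < t := by
    have h1 : (⌊c⌋₊ + 1 : ℕ) ≤ t := (le_max_right _ _).trans ht
    have h2 : ((⌊c⌋₊ + 1 : ℕ) : ℝ) ≤ t := Nat.cast_le.mpr h1
    push_cast at h2
    exact (Nat.lt_floor_add_one c).trans_le h2
  have ht4' : (4 : ℝ) ≤ t := by exact_mod_cast ht4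
  refine ⟨ht4, ?_⟩
  rw [hm]
  have e1 : m + 2 - 2 = m := by omega
  have e2 : m + 2 - 1 = m + 1 := by omega
  rw [e1, e2]
  change n * (8 * n * b * t) ^ m < ((t : ℝ) - 1) ^ (m + 1)
  have h3 : ((t : ℝ) / 2) ^ (m + 1) ≤ ((t : ℝ) - 1) ^ (m + 1) :=
    pow_le_pow_left₀ (by positivity) (by linarith) _
  refine lt_of_lt_of_le ?_ h3
  have h4 : n * (8 * n * b * t) ^ m = c / 2 ^ (m + 1) * (t : ℝ) ^ m := by
    rw [hc, mul_pow]
    field_simp
  have h5 : ((t : ℝ) / 2) ^ (m + 1) = (t : ℝ) / 2 ^ (m + 1) * (t : ℝ) ^ m := by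
    rw [div_pow, pow_succ (t : ℝ)]
    ring
  rw [h4, h5]
  have h6 : (0 : ℝ) < (t : ℝ) ^ m := by positivity
  refine mul_lt_mul_of_pos_right ?_ h6
  exact div_lt_div_of_pos_right htc (by positivity)

end Pool.Agent.LRG.H44
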